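import Pool.Agent.helper34.FJ3.DefsB

set_option autoImplicit false

/-!
# FJ3, module B3: Euclidean cones over pseudometrics bounded by `π`
-/

namespace Pool.Agent.helper22.FJ3

open Pool.Agent.helper34.FJ2 Pool.Agent.helper34.FJ3
open scoped BigOperators

/-- polar coordinates in the plane -/
noncomputable def pl (r θ : ℝ) : ℂ := ⟨r * Real.cos θ, r * Real.sin θ⟩

lemma dist_pl (r s θ φ : ℝ) : dist (pl r θ) (pl s φ) =
    Real.sqrt (r ^ 2 + s ^ 2 - 2 * r * s * Real.cos (θ - φ)) := by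
  rw [Complex.dist_eq_re_im]
  congr 1
  simp only [pl]
  rw [Real.cos_sub]
  linear_combination r ^ 2 * (Real.sin_sq_add_cos_sq θ) + s ^ 2 * (Real.sin_sq_add_cos_sq φ)

lemma quad_nonneg (r s c : ℝ) (h1 : -1 ≤ c) (h2 : c ≤ 1) : 0 ≤ r ^ 2 + s ^ 2 - 2 * r * s * c := by
  nlinarith [sq_nonneg (r - s * c), sq_nonneg s, mul_nonneg (sq_nonneg s)
    (mul_nonneg (sub_nonneg.2 h2) (by linarith : 0 ≤ 1 + c))]

lemma cdist_sq {Θ : Type} (a : Θ → Θ → ℝ) (p q : ℝ × Θ) :
    cdist a p q ^ 2 = p.1 ^ 2 + q.1 ^ 2 - 2 * p.1 * q.1 * Real.cos (a p.2 q.2) :=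
  Real.sq_sqrt (quad_nonneg _ _ _ (Real.neg_one_le_cos _) (Real.cos_le_one _))

lemma cdist_nonneg {Θ : Type} (a : Θ → Θ → ℝ) (p q : ℝ × Θ) : 0 ≤ cdist a p q :=
  Real.sqrt_nonneg _

lemma cdist_le_of {Θ : Type} (a : Θ → Θ → ℝ) {p q : ℝ × Θ} (hp : 0 ≤ p.1) (hq : 0 ≤ q.1) {θ φ : ℝ}
    (h : Real.cos (θ - φ) ≤ Real.cos (a p.2 q.2)) : cdist a p q ≤ dist (pl p.1 θ) (pl q.1 φ) := by
  rw [dist_pl, cdist]
  apply Real.sqrt_le_sqrt
  have := mul_le_mul_of_nonneg_left h (mul_nonneg hp hq)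
  linarith

lemma le_cdist_of {Θ : Type} (a : Θ → Θ → ℝ) {p q : ℝ × Θ} (hp : 0 ≤ p.1) (hq : 0 ≤ q.1) {θ φ : ℝ}
    (h : Real.cos (a p.2 q.2) ≤ Real.cos (θ - φ)) : dist (pl p.1 θ) (pl q.1 φ) ≤ cdist a p q := by
  rw [dist_pl, cdist]
  apply Real.sqrt_le_sqrt
  have := mul_le_mul_of_nonneg_left h (mul_nonneg hp hq)
  linarith

theorem cone_tri {Θ : Type} (a : Θ → Θ → ℝ) (ha : AngleLike a) (p q r : ℝ × Θ) (hp : 0 ≤ p.1)
    (hq : 0 ≤ q.1) (hr : 0 ≤ r.1) : cdist a p r ≤ cdist a p q + cdist a q r := by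
  have h1 := ha.tri p.2 q.2 r.2
  have h2 := ha.nonneg p.2 q.2
  have h3 := ha.nonneg q.2 r.2
  have h4 := ha.nonneg p.2 r.2
  by_cases h : a p.2 q.2 + a q.2 r.2 ≤ Real.pi
  · have e1 : cdist a p r ≤ dist (pl p.1 0) (pl r.1 (a p.2 q.2 + a q.2 r.2)) := by
      apply cdist_le_of a hp hr
      rw [zero_sub, Real.cos_neg]
      exact Real.cos_le_cos_of_nonneg_of_le_pi h4 h h1
    have e2 : dist (pl p.1 0) (pl q.1 (a p.2 q.2)) ≤ cdist a p q := by
      apply le_cdist_of a hp hq
      rw [zero_sub, Real.cos_neg]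
    have e3 : dist (pl q.1 (a p.2 q.2)) (pl r.1 (a p.2 q.2 + a q.2 r.2)) ≤ cdist a q r := by
      apply le_cdist_of a hq hr
      rw [sub_add_cancel_left, Real.cos_neg]
    linarith [dist_triangle (pl p.1 0) (pl q.1 (a p.2 q.2)) (pl r.1 (a p.2 q.2 + a q.2 r.2))]
  · have e1 : cdist a p r ≤ dist (pl p.1 0) (pl r.1 Real.pi) := by
      apply cdist_le_of a hp hr
      rw [zero_sub, Real.cos_neg, Real.cos_pi]
      exact Real.neg_one_le_cos _
    have e2 : dist (pl p.1 0) (pl q.1 (a p.2 q.2)) ≤ cdist a p q := by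
      apply le_cdist_of a hp hq
      rw [zero_sub, Real.cos_neg]
    have e3 : dist (pl q.1 (a p.2 q.2)) (pl r.1 Real.pi) ≤ cdist a q r := by
      apply le_cdist_of a hq hr
      rw [← Real.cos_neg (a p.2 q.2 - Real.pi), neg_sub]
      apply Real.cos_le_cos_of_nonneg_of_le_pi
      · linarith [ha.le_pi p.2 q.2]
      · exact ha.le_pi _ _
      · linarith
    linarith [dist_triangle (pl p.1 0) (pl q.1 (a p.2 q.2)) (pl r.1 Real.pi)]

/-- polar coordinates of the point dividing a segment -/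
lemma exists_polar_seg (P Q θ t : ℝ) (hP : 0 ≤ P) (hQ : 0 ≤ Q) (h0 : 0 ≤ θ) (hπ : θ < Real.pi)
    (ht : 0 ≤ t) (ht' : t ≤ 1) : ∃ ρ ν : ℝ, 0 ≤ ρ ∧ 0 ≤ ν ∧ ν ≤ θ ∧
      (1 - t) * P + t * Q * Real.cos θ = ρ * Real.cos ν ∧ t * Q * Real.sin θ = ρ * Real.sin ν := by
  rcases h0.eq_or_lt with rfl | hθ
  · refine ⟨(1 - t) * P + t * Q, 0, by nlinarith [mul_nonneg ht hQ], le_rfl, le_rfl, by simp, by simp⟩
  have hs : 0 < Real.sin θ := Real.sin_pos_of_pos_of_lt_pi hθ hπ
  have hcont : ContinuousOn (fun ν : ℝ => ((1 - t) * P + t * Q * Real.cos θ) * Real.sin ν -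
      t * Q * Real.sin θ * Real.cos ν) (Set.Icc 0 θ) := by fun_prop
  have hiv := intermediate_value_Icc h0 hcont
  have hz : (0 : ℝ) ∈ Set.Icc ((fun ν : ℝ => ((1 - t) * P + t * Q * Real.cos θ) * Real.sin ν -
      t * Q * Real.sin θ * Real.cos ν) 0) ((fun ν : ℝ => ((1 - t) * P + t * Q * Real.cos θ) *
      Real.sin ν - t * Q * Real.sin θ * Real.cos ν) θ) := by
    constructor
    · simp only [Real.sin_zero, Real.cos_zero]
      nlinarith [mul_nonneg (mul_nonneg ht hQ) hs.le]
    · show 0 ≤ ((1 - t) * P + t * Q * Real.cos θ) * Real.sin θ - t * Q * Real.sin θ * Real.cos θ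
      nlinarith [mul_nonneg (mul_nonneg (sub_nonneg.2 ht') hP) hs.le]
  obtain ⟨ν, ⟨hν0, hν1⟩, hν⟩ := hiv hz
  simp only at hν
  set u := (1 - t) * P + t * Q * Real.cos θ with hu
  set w := t * Q * Real.sin θ with hw
  have hw0 : 0 ≤ w := mul_nonneg (mul_nonneg ht hQ) hs.le
  have hcs := Real.sin_sq_add_cos_sq ν
  refine ⟨u * Real.cos ν + w * Real.sin ν, ν, ?_, hν0, hν1, ?_, ?_⟩
  · rcases hν0.eq_or_lt with rfl | hν0'
    · simp only [Real.sin_zero, Real.cos_zero, mul_zero, mul_one, zero_sub, neg_eq_zero] at hν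
      simp only [Real.sin_zero, Real.cos_zero, mul_zero, mul_one, add_zero]
      have h1 : t * Q = 0 := by
        rcases mul_eq_zero.1 (hw ▸ hν) with h | h
        · exact h
        · exact absurd h hs.ne'
      rw [hu, h1]
      nlinarith [mul_nonneg (sub_nonneg.2 ht') hP]
    · have hsν : 0 < Real.sin ν := Real.sin_pos_of_pos_of_lt_pi hν0' (by linarith)
      have h2 : (u * Real.cos ν + w * Real.sin ν) * Real.sin ν = w := by
        linear_combination (Real.cos ν) * hν + w * hcs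
      by_contra hneg
      push Not at hneg
      have := mul_neg_of_neg_of_pos hneg hsν
      linarith
  · linear_combination (Real.sin ν) * hν - u * hcs
  · linear_combination -(Real.cos ν) * hν - w * hcs

lemma cos_le_of_abs_le {x y : ℝ} (h : |x| ≤ y) (hy : y ≤ Real.pi) : Real.cos y ≤ Real.cos x := by
  rw [← Real.cos_abs x]
  exact Real.cos_le_cos_of_nonneg_of_le_pi (abs_nonneg _) hy h

theorem cone_cn {Θ : Type} (a : Θ → Θ → ℝ) (ha : AngleLike a)
    (hmid : ∀ x y, a x y < Real.pi → ∀ t : ℝ, 0 ≤ t → t ≤ 1 →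
      ∃ m, a x m = t * a x y ∧ a m y = (1 - t) * a x y ∧
        ∀ z, Real.cos (a z y) ≤ Real.cos (a z m + a m y) ∨
          Real.cos (a z x) ≤ Real.cos (a z m + a m x))
    (p q : ℝ × Θ) (hp : 0 ≤ p.1) (hq : 0 ≤ q.1) (t : ℝ) (ht : 0 ≤ t) (ht' : t ≤ 1) :
    ∃ m : ℝ × Θ, 0 ≤ m.1 ∧ ∀ z : ℝ × Θ, 0 ≤ z.1 →
      cdist a z m ^ 2 ≤
        (1 - t) * cdist a z p ^ 2 + t * cdist a z q ^ 2 - t * (1 - t) * cdist a p q ^ 2 := by
  obtain ⟨P, x⟩ := p
  obtain ⟨Q, y⟩ := q
  simp only at hp hq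
  rcases (ha.le_pi x y).eq_or_lt with hπ | hπ
  · -- opposite directions
    have key : ∀ z : Θ, Real.cos (a z x) + Real.cos (a z y) ≤ 0 := by
      intro z
      have h1 := ha.tri x z y
      rw [hπ, ha.symm x z] at h1
      have h2 : Real.cos (a z y) ≤ Real.cos (Real.pi - a z x) :=
        Real.cos_le_cos_of_nonneg_of_le_pi (by linarith [ha.le_pi z x]) (ha.le_pi _ _)
          (by linarith)
      rw [Real.cos_pi_sub] at h2
      linarith
    by_cases hρ : 0 ≤ (1 - t) * P - t * Q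
    · refine ⟨((1 - t) * P - t * Q, x), hρ, ?_⟩
      rintro ⟨Z, z⟩ hZ
      simp only at hZ
      have hk := key z
      simp only [cdist_sq, hπ, Real.cos_pi]
      have h3 : 0 ≤ 2 * Z * (t * Q) * (-(Real.cos (a z x) + Real.cos (a z y))) := by
        apply mul_nonneg
        · exact mul_nonneg (by linarith) (mul_nonneg ht hq)
        · linarith
      nlinarith [h3]
    · push Not at hρ
      refine ⟨(t * Q - (1 - t) * P, y), by simp only; linarith, ?_⟩
      rintro ⟨Z, z⟩ hZ
      simp only at hZ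
      have hk := key z
      simp only [cdist_sq, hπ, Real.cos_pi]
      have h3 : 0 ≤ 2 * Z * ((1 - t) * P) * (-(Real.cos (a z x) + Real.cos (a z y))) := by
        apply mul_nonneg
        · exact mul_nonneg (by linarith) (mul_nonneg (by linarith) hp)
        · linarith
      nlinarith [h3]
  · obtain ⟨ρ, ν, hρ, hν0, hν1, e1, e2⟩ :=
      exists_polar_seg P Q (a x y) t hp hq (ha.nonneg x y) hπ ht ht'
    have hdiv : ν / a x y * a x y = ν := by
      rcases (ha.nonneg x y).eq_or_lt with h0 | h0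
      · rw [← h0, mul_zero]
        linarith
      · exact div_mul_cancel₀ _ h0.ne'
    obtain ⟨m, hm1, hm2, hm3⟩ := hmid x y hπ (ν / a x y) (div_nonneg hν0 (ha.nonneg x y))
      (div_le_one_of_le₀ hν1 (ha.nonneg x y))
    rw [hdiv] at hm1
    rw [sub_mul, one_mul, hdiv] at hm2
    refine ⟨(ρ, m), hρ, ?_⟩
    rintro ⟨Z, z⟩ hZ
    simp only at hZ
    simp only [cdist_sq]
    -- the planar identity
    have hρ2 : ρ ^ 2 = (1 - t) ^ 2 * P ^ 2 + t ^ 2 * Q ^ 2 +
        2 * t * (1 - t) * P * Q * Real.cos (a x y) := by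
      have h1 := Real.sin_sq_add_cos_sq ν
      have h2 := Real.sin_sq_add_cos_sq (a x y)
      have h3 : ρ ^ 2 = (ρ * Real.cos ν) ^ 2 + (ρ * Real.sin ν) ^ 2 := by
        linear_combination -(ρ ^ 2) * h1
      rw [h3, ← e1, ← e2]
      linear_combination (t * Q) ^ 2 * h2
    have hpl : ∀ ψ : ℝ, ρ * Real.cos (ν - ψ) =
        (1 - t) * P * Real.cos ψ + t * Q * Real.cos (a x y - ψ) := by
      intro ψ
      rw [Real.cos_sub, Real.cos_sub]
      linear_combination -(Real.cos ψ) * e1 - (Real.sin ψ) * e2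
    have fin : ∀ ψ : ℝ, Real.cos (ν - ψ) = Real.cos (a z m) → Real.cos (a z x) ≤ Real.cos ψ →
        Real.cos (a z y) ≤ Real.cos (a x y - ψ) →
        Z ^ 2 + ρ ^ 2 - 2 * Z * ρ * Real.cos (a z m) ≤
          (1 - t) * (Z ^ 2 + P ^ 2 - 2 * Z * P * Real.cos (a z x)) +
            t * (Z ^ 2 + Q ^ 2 - 2 * Z * Q * Real.cos (a z y)) -
          t * (1 - t) * (P ^ 2 + Q ^ 2 - 2 * P * Q * Real.cos (a x y)) := by
      intro ψ h1 h2 h3
      have h4 := hpl ψ
      rw [h1] at h4
      have h5 : 0 ≤ 2 * Z * ((1 - t) * P) * (Real.cos ψ - Real.cos (a z x)) :=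
        mul_nonneg (mul_nonneg (by linarith) (mul_nonneg (by linarith) hp)) (by linarith)
      have h6 : 0 ≤ 2 * Z * (t * Q) * (Real.cos (a x y - ψ) - Real.cos (a z y)) :=
        mul_nonneg (mul_nonneg (by linarith) (mul_nonneg ht hq)) (by linarith)
      have h7 : 2 * Z * ρ * Real.cos (a z m) =
          2 * Z * ((1 - t) * P * Real.cos ψ + t * Q * Real.cos (a x y - ψ)) := by
        rw [← h4]; ring
      rw [h7, hρ2]
      linarith
    have s1 := ha.tri z m x
    have s2 := ha.tri z x m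
    have s3 := ha.tri z m y
    have s4 := ha.tri z y m
    have s5 := ha.tri m z x
    have s6 := ha.tri m z y
    rw [ha.symm m x] at s1 s5
    rw [ha.symm y m] at s4
    rw [ha.symm m z] at s5 s6
    rcases hm3 z with hc | hc
    · rw [hm2] at hc
      refine fin (ν - a z m) (by rw [sub_sub_cancel]) ?_ ?_
      · apply cos_le_of_abs_le _ (ha.le_pi _ _)
        rw [abs_le]
        constructor <;> linarith
      · refine hc.trans (le_of_eq ?_)
        congr 1
        ring
    · rw [ha.symm m x, hm1] at hc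
      refine fin (ν + a z m) (by rw [sub_add_cancel_left, Real.cos_neg]) ?_ ?_
      · refine hc.trans (le_of_eq ?_)
        congr 1
        ring
      · apply cos_le_of_abs_le _ (ha.le_pi _ _)
        rw [abs_le]
        constructor <;> linarith

/-- the denominator of the polar equation of a segment -/
noncomputable def Dn (u v θ α : ℝ) : ℝ := u * Real.sin α + v * Real.sin (θ - α)

lemma Dn_pos {u v θ α : ℝ} (hu : 0 < u) (hv : 0 < v) (h0 : 0 < θ) (hπ : θ < Real.pi)
    (h1 : 0 ≤ α) (h2 : α ≤ θ) : 0 < Dn u v θ α := by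
  rcases h1.eq_or_lt with rfl | h1'
  · rw [Dn, Real.sin_zero, sub_zero]
    have := Real.sin_pos_of_pos_of_lt_pi h0 hπ
    nlinarith [mul_pos hv this]
  · have e1 := Real.sin_pos_of_pos_of_lt_pi h1' (by linarith)
    have e2 := Real.sin_nonneg_of_nonneg_of_le_pi (sub_nonneg.2 h2) (by linarith)
    rw [Dn]
    nlinarith [mul_pos hu e1, mul_nonneg hv.le e2]

lemma seg_cos {u v θ α : ℝ} (hD : Dn u v θ α ≠ 0) :
    u * v * Real.sin θ / Dn u v θ α * Real.cos α =
      (1 - u * Real.sin α / Dn u v θ α) * u + u * Real.sin α / Dn u v θ α * v * Real.cos θ := by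
  field_simp
  rw [Dn, Real.sin_sub]
  ring

lemma seg_sin {u v θ α : ℝ} :
    u * v * Real.sin θ / Dn u v θ α * Real.sin α =
      u * Real.sin α / Dn u v θ α * v * Real.sin θ := by
  ring

theorem cone_chain {Θ : Type} (a : Θ → Θ → ℝ) (ha : AngleLike a) (p q : ℝ × Θ) (hp : 0 < p.1)
    (hq : 0 < q.1) (hlt : a p.2 q.2 < Real.pi) (n : ℕ) (P : ℕ → Θ) (h0 : P 0 = p.2)
    (hn : P n = q.2) (hsum : ∑ i ∈ Finset.range n, a (P i) (P (i + 1)) = a p.2 q.2) :
    ∃ r : ℕ → ℝ, r 0 = p.1 ∧ (1 ≤ n → r n = q.1) ∧ (∀ i, i ≤ n → 0 < r i) ∧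
      (1 ≤ n → ∑ i ∈ Finset.range n, cdist a (r i, P i) (r (i + 1), P (i + 1)) = cdist a p q) := by
  obtain ⟨u, x⟩ := p
  obtain ⟨v, y⟩ := q
  simp only at hp hq hlt h0 hn hsum ⊢
  rcases (ha.nonneg x y).eq_or_lt with hθ | hθ
  · -- equal directions
    rw [← hθ] at hsum
    have hz := (Finset.sum_eq_zero_iff_of_nonneg (fun i _ => ha.nonneg (P i) (P (i + 1)))).1 hsum
    refine ⟨fun i => if i = 0 then u else v, by simp, fun h => by simp [show n ≠ 0 by omega],
      fun i _ => ?_, fun h => ?_⟩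
    · simp only
      split_ifs
      · exact hp
      · exact hq
    · have hterm : ∀ i ∈ Finset.range n, cdist a ((if i = 0 then u else v), P i)
          ((if i + 1 = 0 then u else v), P (i + 1)) = if i = 0 then |u - v| else 0 := by
        intro i hi
        rw [cdist]
        simp only [hz i hi, Real.cos_zero, Nat.succ_ne_zero, if_false, mul_one]
        split_ifs with h1
        · rw [show u ^ 2 + v ^ 2 - 2 * u * v = (u - v) ^ 2 by ring, Real.sqrt_sq_eq_abs]
        · rw [show v ^ 2 + v ^ 2 - 2 * v * v = 0 by ring, Real.sqrt_zero]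
      rw [Finset.sum_congr rfl hterm, Finset.sum_ite_eq' (Finset.range n) 0 (fun _ => |u - v|),
        if_pos (Finset.mem_range.2 (by omega)), cdist]
      simp only [← hθ, Real.cos_zero, mul_one]
      rw [show u ^ 2 + v ^ 2 - 2 * u * v = (u - v) ^ 2 by ring, Real.sqrt_sq_eq_abs]
  · set θ := a x y with hθd
    set α : ℕ → ℝ := fun i => ∑ j ∈ Finset.range i, a (P j) (P (j + 1)) with hα
    have hα0 : α 0 = 0 := by simp [hα]
    have hαn : α n = θ := hsum
    have hmono : Monotone α := by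
      apply monotone_nat_of_le_succ
      intro i
      simp only [hα, Finset.sum_range_succ]
      linarith [ha.nonneg (P i) (P (i + 1))]
    have hstep : ∀ i, α (i + 1) - α i = a (P i) (P (i + 1)) := by
      intro i
      simp only [hα, Finset.sum_range_succ]
      ring
    have hαpos : ∀ i, 0 ≤ α i := fun i => by
      have := hmono (Nat.zero_le i)
      rwa [hα0] at this
    have hαle : ∀ i, i ≤ n → α i ≤ θ := fun i hi => by
      have := hmono hi
      rwa [hαn] at this
    have hD : ∀ i, i ≤ n → 0 < Dn u v θ (α i) := fun i hi =>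
      Dn_pos hp hq hθ hlt (hαpos i) (hαle i hi)
    have hsθ : 0 < Real.sin θ := Real.sin_pos_of_pos_of_lt_pi hθ hlt
    refine ⟨fun i => u * v * Real.sin θ / Dn u v θ (α i), ?_, fun h => ?_, fun i hi => ?_,
      fun h => ?_⟩
    · simp only [hα0, Dn, Real.sin_zero, mul_zero, sub_zero, zero_add]
      field_simp
    · simp only [hαn, Dn, sub_self, Real.sin_zero, mul_zero, add_zero]
      field_simp
    · exact div_pos (mul_pos (mul_pos hp hq) hsθ) (hD i hi)
    · set s : ℕ → ℝ := fun i => u * Real.sin (α i) / Dn u v θ (α i) with hs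
      have hterm : ∀ i ∈ Finset.range n, cdist a (u * v * Real.sin θ / Dn u v θ (α i), P i)
          (u * v * Real.sin θ / Dn u v θ (α (i + 1)), P (i + 1)) =
          (s (i + 1) - s i) * cdist a (u, x) (v, y) := by
        intro i hi
        rw [Finset.mem_range] at hi
        have hD1 := hD i hi.le
        have hD2 := hD (i + 1) hi
        have hsd : 0 ≤ s (i + 1) - s i := by
          have e1 : s (i + 1) - s i =
              u * v * Real.sin θ * Real.sin (α (i + 1) - α i) /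
                (Dn u v θ (α (i + 1)) * Dn u v θ (α i)) := by
            simp only [hs]
            rw [div_sub_div _ _ hD2.ne' hD1.ne']
            congr 1
            simp only [Dn, Real.sin_sub]
            have e3 := Real.sin_sq_add_cos_sq (α i)
            ring
          rw [e1]
          apply div_nonneg _ (mul_pos hD2 hD1).le
          apply mul_nonneg (mul_pos (mul_pos hp hq) hsθ).le
          apply Real.sin_nonneg_of_nonneg_of_le_pi
          · rw [hstep]
            exact ha.nonneg _ _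
          · rw [hstep]
            exact ha.le_pi _ _
        have hsq : cdist a (u * v * Real.sin θ / Dn u v θ (α i), P i)
            (u * v * Real.sin θ / Dn u v θ (α (i + 1)), P (i + 1)) ^ 2 =
            ((s (i + 1) - s i) * cdist a (u, x) (v, y)) ^ 2 := by
          rw [mul_pow, cdist_sq, cdist_sq]
          simp only
          rw [← hstep i, Real.cos_sub, ← hθd]
          have c1 := seg_cos (u := u) (v := v) (θ := θ) (α := α i) hD1.ne'
          have c2 := seg_cos (u := u) (v := v) (θ := θ) (α := α (i + 1)) hD2.ne'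
          have d1 := seg_sin (u := u) (v := v) (θ := θ) (α := α i)
          have d2 := seg_sin (u := u) (v := v) (θ := θ) (α := α (i + 1))
          have f1 := Real.sin_sq_add_cos_sq (α i)
          have f2 := Real.sin_sq_add_cos_sq (α (i + 1))
          have f3 := Real.sin_sq_add_cos_sq θ
          change _ = (s (i + 1) - s i) ^ 2 * _
          have g1 : u * Real.sin (α i) / Dn u v θ (α i) = s i := rfl
          have g2 : u * Real.sin (α (i + 1)) / Dn u v θ (α (i + 1)) = s (i + 1) := rfl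
          rw [g1] at c1 d1
          rw [g2] at c2 d2
          set ρ1 := u * v * Real.sin θ / Dn u v θ (α i)
          set ρ2 := u * v * Real.sin θ / Dn u v θ (α (i + 1))
          have k1 : ρ1 ^ 2 + ρ2 ^ 2 - 2 * ρ1 * ρ2 * (Real.cos (α (i + 1)) * Real.cos (α i) +
              Real.sin (α (i + 1)) * Real.sin (α i)) =
              (ρ1 * Real.cos (α i) - ρ2 * Real.cos (α (i + 1))) ^ 2 +
                (ρ1 * Real.sin (α i) - ρ2 * Real.sin (α (i + 1))) ^ 2 := by
            linear_combination -(ρ1 ^ 2) * f1 - ρ2 ^ 2 * f2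
          rw [k1, c1, c2, d1, d2]
          linear_combination ((s (i + 1) - s i) ^ 2 * v ^ 2) * f3
        exact (pow_left_inj₀ (cdist_nonneg _ _ _) (mul_nonneg hsd (cdist_nonneg _ _ _))
          two_ne_zero).1 hsq
      rw [Finset.sum_congr rfl hterm, ← Finset.sum_mul, Finset.sum_range_sub]
      have hs0 : s 0 = 0 := by simp [hs, hα0]
      have hsn : s n = 1 := by
        simp only [hs, hαn, Dn, sub_self, Real.sin_zero, mul_zero, add_zero]
        exact div_self (mul_pos hp hsθ).ne'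
      rw [hs0, hsn, sub_zero, one_mul]

end Pool.Agent.helper22.FJ3
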